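import Pool.Agent.LAT.StmtsC

/-!
# Squad LAT, COV: the covering radius
-/

set_option autoImplicit false

namespace Pool.Agent.LAT.H53

open Matrix

theorem rv_sum {m : ℕ} (s : Finset ℕ) (c : ℕ → ℤ) (w : ℕ → Fin m → ℤ) :
    rv (∑ j ∈ s, c j • w j) = ∑ j ∈ s, (c j : ℝ) • rv (w j) := by
  funext i
  simp [rv, Finset.sum_apply]

theorem sum_beta (r : ℕ) (R D : ℝ) :
    ∑ i ∈ Finset.range r, (R - i) * D = (R * r - (r : ℝ) * (r - 1) / 2) * D := by
  induction r with
  | zero => simp
  | succ r ih =>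
    rw [Finset.sum_range_succ, ih]
    push_cast
    ring

/-- COV -/
theorem cov (sqs : SqsStmt) (npl : NplStmt) (phs : PhsStmt) : CovStmt := by
  intro m D M hM p hp
  rcases Nat.eq_zero_or_pos D with hD | hD
  · subst hD
    have hbot : M = ⊥ := by
      by_contra hne
      have h1 := hM ⊥ (bot_lt_iff_ne_bot.2 hne)
      rw [(phs m 0).1] at h1
      have h2 : rk M ≠ 0 := by
        intro h3
        exact hne (Submodule.finrank_eq_zero.1 h3)
      have h4 : ph 0 M = 0 := by
        unfold ph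
        rw [Nat.cast_zero, zero_pow h2, zero_div]
      rw [h4] at h1
      norm_num at h1
    subst hbot
    refine ⟨0, Submodule.zero_mem _, ?_⟩
    have hp0 : p = 0 := by
      have h5 : RS (⊥ : Submodule ℤ (Fin m → ℤ)) = ⊥ := by
        unfold RS
        rw [Submodule.span_eq_bot]
        rintro x ⟨y, hy, rfl⟩
        have h6 : y = 0 := (Submodule.mem_bot ℤ).1 hy
        subst h6
        funext i
        simp [rv]
      rw [h5] at hp
      exact (Submodule.mem_bot ℝ).1 hp
    have h7 : rv (0 : Fin m → ℤ) = 0 := by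
      funext i
      simp [rv]
    rw [hp0, h7, sub_zero]
    simp [sq]
  · obtain ⟨w, hw, hq, hspan⟩ := sqs m D M hD hM
    obtain ⟨c, hc⟩ := npl m (rk M) w (fun i => ((rk M : ℝ) - i) * D) hq p (hspan hp)
    refine ⟨∑ j ∈ Finset.range (rk M), c j • w j,
      Submodule.sum_mem _ fun j _ => Submodule.smul_mem _ _ (hw j), ?_⟩
    rw [rv_sum]
    refine hc.trans (le_of_eq ?_)
    rw [sum_beta]
    ring

end Pool.Agent.LAT.H53
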